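import Pool.Agent.Helper97.Sheet.Bar

/-!
# Which compact sets are hit by the projection of the double points of the Brownian sheet
-/

open MeasureTheory ProbabilityTheory Set Pool.Agent.Helper97.Sheet
open scoped ENNReal NNReal

namespace Pool.Agent.Results.MP_147a43_pr.BarCharacterisation

/-- For a compact set `E ⊆ (0, ∞)²`, the random set of the points `(s, t₁)` such that
`B(s, t₁) = B(s, t₂)` for some `t₂ > 0`, `t₂ ≠ t₁`, meets `E` with positive probability if and only
if `E` has positive capacity of order `(d - 2) / 2`. -/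
theorem result {Ω : Type*} [MeasurableSpace Ω] {P : Measure Ω} {d : ℕ} (hd : 1 ≤ d)
    {B : ℝ≥0 → ℝ≥0 → Ω → Fin d → ℝ} (hB : IsBrownianSheet B P)
    {E : Set (EuclideanSpace ℝ (Fin 2))} (hE : IsCompact E) (hpos : ∀ x ∈ E, ∀ k, 0 < x k) :
    0 < P {ω | (barD B ω ∩ E).Nonempty} ↔ 0 < Cap (((d : ℝ) - 2) / 2) E :=
  sheet_q2 hB hd hE hpos

end Pool.Agent.Results.MP_147a43_pr.BarCharacterisation
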