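import Pool.Agent.Helper97.Sheet.Assemble

/-!
# Which compact sets are hit by the double points of the Brownian sheet along lines
-/

open MeasureTheory ProbabilityTheory Set Pool.Agent.Helper97.Sheet
open scoped ENNReal NNReal

namespace Pool.Agent.Results.MP_147a43_pr.HatCharacterisation

/-- For a compact set `G ⊆ (0, ∞)³`, the random set of the points `(s, t₁, t₂)` with `t₁ ≠ t₂` and
`B(s, t₁) = B(s, t₂)` meets `G` with positive probability if and only if the part of `G` off the
diagonal `{t₁ = t₂}` has positive capacity of order `d / 2`. -/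
theorem result {Ω : Type*} [MeasurableSpace Ω] {P : Measure Ω} {d : ℕ} (hd : 1 ≤ d)
    {B : ℝ≥0 → ℝ≥0 → Ω → Fin d → ℝ} (hB : IsBrownianSheet B P)
    {G : Set (EuclideanSpace ℝ (Fin 3))} (hG : IsCompact G) (hpos : ∀ x ∈ G, ∀ k, 0 < x k) :
    0 < P {ω | (hatD B ω ∩ G).Nonempty} ↔ 0 < Cap ((d : ℝ) / 2) (G ∩ {x | x 1 ≠ x 2}) :=
  sheet_q1 hB hd hG hpos

end Pool.Agent.Results.MP_147a43_pr.HatCharacterisation
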